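import Pool.Agent.TH551.SV.GF

/-! The small-ball bound for the least singular value of a shifted Gaussian matrix. -/

set_option autoImplicit false
open MeasureTheory Measure Set Matrix ProbabilityTheory Filter Topology
open scoped ENNReal NNReal

namespace Pool.Agent.TH551.SV

open Pool.Agent.H992R2 (gam)

variable {n : ℕ}

/-- The direction of a vector. -/
noncomputable def dir (g : Fin n → ℝ) : Fin n → ℝ := (nr g)⁻¹ • g

lemma dir_unit {g : Fin n → ℝ} (hg : g ≠ 0) : dir g ⬝ᵥ dir g = 1 := normalize_mem hg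

lemma nr_nonneg (g : Fin n → ℝ) : 0 ≤ nr g := Real.sqrt_nonneg _

lemma nr_pos {g : Fin n → ℝ} (hg : g ≠ 0) : 0 < nr g := Real.sqrt_pos.mpr (dot_self_pos hg)

lemma nr_zero : nr (0 : Fin n → ℝ) = 0 := by simp [nr]

lemma meas_nr : Measurable (nr : (Fin n → ℝ) → ℝ) :=
  (Real.continuous_sqrt.comp (Continuous.dotProduct continuous_id continuous_id)).measurable

lemma meas_dir : Measurable (dir : (Fin n → ℝ) → (Fin n → ℝ)) :=
  meas_nr.inv.smul measurable_id

/-- The weighted decrease. -/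
noncomputable def Theta (Abar : Matrix (Fin n) (Fin n) ℝ) (ε : ℝ) (N : ℕ)
    (z : (Fin n × Fin n → ℝ) × ((Fin n → ℝ) × (Fin n → ℝ))) : ℝ≥0∞ :=
  ENNReal.ofReal ((N / (2 * Real.pi)) * (nr z.2.2 *
    (F Abar ε 0 z.1 z.2.1 (dir z.2.2) - F Abar ε (2 * Real.pi / N) z.1 z.2.1 (dir z.2.2))))

lemma meas_Theta (hn : 0 < n) (Abar : Matrix (Fin n) (Fin n) ℝ) (ε : ℝ) (N : ℕ) :
    Measurable (Theta Abar ε N) := by
  have hm : Measurable fun z : (Fin n × Fin n → ℝ) × ((Fin n → ℝ) × (Fin n → ℝ)) =>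
      (z.1, (z.2.1, dir z.2.2)) :=
    measurable_fst.prodMk ((measurable_fst.comp measurable_snd).prodMk
      (meas_dir.comp (measurable_snd.comp measurable_snd)))
  have hF : ∀ θ, Measurable fun z : (Fin n × Fin n → ℝ) × ((Fin n → ℝ) × (Fin n → ℝ)) =>
      F Abar ε θ z.1 z.2.1 (dir z.2.2) := by
    intro θ
    have h2 := Measurable.comp (meas_F hn Abar ε θ) hm
    exact h2
  have hnr : Measurable fun z : (Fin n × Fin n → ℝ) × ((Fin n → ℝ) × (Fin n → ℝ)) => nr z.2.2 :=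
    meas_nr.comp (measurable_snd.comp measurable_snd)
  exact (measurable_const.mul (hnr.mul ((hF 0).sub (hF _)))).ennreal_ofReal

theorem upper (hn : 0 < n) (Abar : Matrix (Fin n) (Fin n) ℝ) {ε : ℝ} (hε : 0 ≤ ε) (N : ℕ)
    (hN : 0 < N) :
    ∫⁻ z, Theta Abar ε N z ∂((gam (Fin n × Fin n)).prod ((gam (Fin n)).prod (gam (Fin n)))) ≤
      ENNReal.ofReal (Real.sqrt n * ε / Real.pi) := by
  have hpi := Real.pi_pos
  have h1 := (measurePreserving_prodAssoc (gam (Fin n × Fin n)) (gam (Fin n))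
    (gam (Fin n))).lintegral_comp (meas_Theta hn Abar ε N)
  have hmc : Measurable fun a : ((Fin n × Fin n → ℝ) × (Fin n → ℝ)) × (Fin n → ℝ) =>
      Theta Abar ε N (MeasurableEquiv.prodAssoc a) :=
    (meas_Theta hn Abar ε N).comp MeasurableEquiv.prodAssoc.measurable
  rw [← h1, lintegral_prod_symm' _ hmc]
  have h2 : ∀ g : Fin n → ℝ, ∫⁻ w, Theta Abar ε N (MeasurableEquiv.prodAssoc (w, g))
      ∂((gam (Fin n × Fin n)).prod (gam (Fin n))) ≤
      ENNReal.ofReal (nr g) * ENNReal.ofReal (ε / Real.pi) := by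
    intro g
    by_cases hg : g = 0
    · have h3 : ∀ w : (Fin n × Fin n → ℝ) × (Fin n → ℝ),
          Theta Abar ε N (MeasurableEquiv.prodAssoc (w, g)) = 0 := by
        intro w
        show ENNReal.ofReal ((N / (2 * Real.pi)) * (nr g * _)) = 0
        rw [hg, nr_zero]
        simp
      simp_rw [h3]
      simp
    · have hs := step_bound hn Abar hε (dir_unit hg) N hN _ rfl
      have h3 : ∀ w : (Fin n × Fin n → ℝ) × (Fin n → ℝ),
          Theta Abar ε N (MeasurableEquiv.prodAssoc (w, g)) =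
          ENNReal.ofReal (nr g) * ENNReal.ofReal (1 / (2 * Real.pi)) * ((N : ℝ≥0∞) *
            ENNReal.ofReal (F Abar ε 0 w.1 w.2 (dir g) -
              F Abar ε (2 * Real.pi / N) w.1 w.2 (dir g))) := by
        intro w
        show ENNReal.ofReal ((N / (2 * Real.pi)) * (nr g * (F Abar ε 0 w.1 w.2 (dir g) -
              F Abar ε (2 * Real.pi / N) w.1 w.2 (dir g)))) = _
        rw [← ENNReal.ofReal_natCast N, ← ENNReal.ofReal_mul (nr_nonneg g),
          ← ENNReal.ofReal_mul (by positivity), ← ENNReal.ofReal_mul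
            (mul_nonneg (nr_nonneg g) (by positivity))]
        congr 1
        ring
      simp_rw [h3]
      rw [lintegral_const_mul' _ _ (ENNReal.mul_ne_top ENNReal.ofReal_ne_top ENNReal.ofReal_ne_top),
        lintegral_const_mul' _ _ (ENNReal.natCast_ne_top N)]
      calc ENNReal.ofReal (nr g) * ENNReal.ofReal (1 / (2 * Real.pi)) * _
          ≤ ENNReal.ofReal (nr g) * ENNReal.ofReal (1 / (2 * Real.pi)) * ENNReal.ofReal (2 * ε) :=
            mul_le_mul_right hs _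
        _ = ENNReal.ofReal (nr g) * ENNReal.ofReal (ε / Real.pi) := by
            rw [mul_assoc, ← ENNReal.ofReal_mul (by positivity)]
            congr 2
            field_simp
  refine (lintegral_mono h2).trans ?_
  rw [lintegral_mul_const' _ _ ENNReal.ofReal_ne_top]
  calc _ ≤ ENNReal.ofReal (Real.sqrt n) * ENNReal.ofReal (ε / Real.pi) :=
        mul_le_mul_left (lintegral_nr hn) _
    _ = _ := by
        rw [← ENNReal.ofReal_mul (Real.sqrt_nonneg _)]
        congr 1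
        ring

/-- The pointwise lower bound for the decrease. -/
lemma decrease (Abar : Matrix (Fin n) (Fin n) ℝ) {ε : ℝ}
    (x : Fin n × Fin n → ℝ) (h v t : Fin n → ℝ) (hv : v ⬝ᵥ v = 1) (ht : t ∈ usph n) (δ : ℝ)
    (hs0 : 0 < smin (Abar + mx x)) (hsε : smin (Abar + mx x) ≤ ε)
    (hmin : nA (Abar + mx x) t = smin (Abar + mx x)) :
    -((((Real.cos δ - 1) • (v ᵥ* mx x) + Real.sin δ • h) ⬝ᵥ t) *
        (v ⬝ᵥ ((Abar + mx x) *ᵥ t)) / smin (Abar + mx x)) -
      ((((Real.cos δ - 1) • (v ᵥ* mx x) + Real.sin δ • h) ⬝ᵥ t) ^ 2) / (2 * smin (Abar + mx x)) ≤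
      F Abar ε 0 x h v - F Abar ε δ x h v := by
  set B := Abar + mx x with hB
  set s := smin B with hs
  set w := (Real.cos δ - 1) • (v ᵥ* mx x) + Real.sin δ • h with hw
  have h0 : F Abar ε 0 x h v = s := by
    rw [F, pth_zero, min_eq_left hsε]
  have h1 : F Abar ε δ x h v ≤ nA (pth Abar δ x h v) t :=
    (min_le_left _ _).trans (smin_le ht)
  have h2 : (pth Abar δ x h v *ᵥ t) ⬝ᵥ (pth Abar δ x h v *ᵥ t) =
      s ^ 2 + 2 * (w ⬝ᵥ t) * (v ⬝ᵥ (B *ᵥ t)) + (w ⬝ᵥ t) ^ 2 := by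
    have h3 : pth Abar δ x h v *ᵥ t = B *ᵥ t + (w ⬝ᵥ t) • v := by
      rw [pth, ← hB, ← hw, add_mulVec, vecMulVec_mulVec]
      congr 1
      ext i; simp [mul_comm]
    rw [h3]
    simp only [add_dotProduct, dotProduct_add, smul_dotProduct, dotProduct_smul, smul_eq_mul, hv,
      dotProduct_comm (B *ᵥ t) v]
    rw [← hmin, nA_sq]
    ring
  have h4 : nA (pth Abar δ x h v) t ≤
      ((s ^ 2 + 2 * (w ⬝ᵥ t) * (v ⬝ᵥ (B *ᵥ t)) + (w ⬝ᵥ t) ^ 2) + s ^ 2) / (2 * s) := by
    set Y := nA (pth Abar δ x h v) t with hY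
    have h5 : Y ^ 2 = s ^ 2 + 2 * (w ⬝ᵥ t) * (v ⬝ᵥ (B *ᵥ t)) + (w ⬝ᵥ t) ^ 2 := by
      rw [hY, nA_sq, h2]
    rw [← h5, le_div_iff₀ (by positivity)]
    nlinarith [sq_nonneg (Y - s)]
  have h6 : ((s ^ 2 + 2 * (w ⬝ᵥ t) * (v ⬝ᵥ (B *ᵥ t)) + (w ⬝ᵥ t) ^ 2) + s ^ 2) / (2 * s) =
      s + ((w ⬝ᵥ t) * (v ⬝ᵥ (B *ᵥ t)) / s + (w ⬝ᵥ t) ^ 2 / (2 * s)) := by
    field_simp
    ring
  rw [h0]
  rw [h6] at h4
  linarith

/-- The pointwise lower limit. -/
lemma liminf_lower (Abar : Matrix (Fin n) (Fin n) ℝ) {ε : ℝ}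
    (x : Fin n × Fin n → ℝ) (h g t : Fin n → ℝ) (hg : g ≠ 0) (ht : t ∈ usph n)
    (hs0 : 0 < smin (Abar + mx x)) (hsε : smin (Abar + mx x) ≤ ε)
    (hmin : nA (Abar + mx x) t = smin (Abar + mx x)) :
    ENNReal.ofReal (-((h ⬝ᵥ t) *
        (g ⬝ᵥ ((smin (Abar + mx x))⁻¹ • ((Abar + mx x) *ᵥ t))))) ≤
      liminf (fun N : ℕ => Theta Abar ε (N + 1) (x, (h, g))) atTop := by
  set B := Abar + mx x with hB
  set s := smin B with hs
  set v := dir g with hv
  have hvu : v ⬝ᵥ v = 1 := dir_unit hg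
  set q := v ᵥ* mx x with hq
  set τ : ℝ → ℝ := fun δ => ((Real.cos δ - 1) • q + Real.sin δ • h) ⬝ᵥ t with hτ
  have hτ' : ∀ δ, τ δ = (Real.cos δ - 1) * (q ⬝ᵥ t) + Real.sin δ * (h ⬝ᵥ t) := by
    intro δ
    simp only [hτ, add_dotProduct, smul_dotProduct, smul_eq_mul]
  have hτ0 : τ 0 = 0 := by rw [hτ']; simp
  have hder : HasDerivAt τ (h ⬝ᵥ t) 0 := by
    have h1 : HasDerivAt (fun δ => (Real.cos δ - 1) * (q ⬝ᵥ t) + Real.sin δ * (h ⬝ᵥ t))
        ((-Real.sin 0) * (q ⬝ᵥ t) + Real.cos 0 * (h ⬝ᵥ t)) 0 :=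
      (((Real.hasDerivAt_cos 0).sub_const 1).mul_const _).add ((Real.hasDerivAt_sin 0).mul_const _)
    have h2 : τ = fun δ => (Real.cos δ - 1) * (q ⬝ᵥ t) + Real.sin δ * (h ⬝ᵥ t) := funext hτ'
    rw [h2]
    simpa using h1
  set δ : ℕ → ℝ := fun N => 2 * Real.pi / ((N + 1 : ℕ) : ℝ) with hδ
  have hpi := Real.pi_pos
  have hδpos : ∀ N, 0 < δ N := by intro N; simp only [hδ]; positivity
  have hδlim : Tendsto δ atTop (𝓝 0) := by
    have h1 : Tendsto (fun N : ℕ => 2 * Real.pi / (N : ℝ)) atTop (𝓝 0) :=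
      tendsto_const_div_atTop_nhds_zero_nat _
    exact h1.comp (tendsto_add_atTop_nat 1)
  have hδlim' : Tendsto δ atTop (𝓝[≠] 0) := by
    rw [tendsto_nhdsWithin_iff]
    exact ⟨hδlim, Filter.Eventually.of_forall fun N => (hδpos N).ne'⟩
  have hslope : Tendsto (fun N => τ (δ N) / δ N) atTop (𝓝 (h ⬝ᵥ t)) := by
    have h1 := (hasDerivAt_iff_tendsto_slope.mp hder).comp hδlim'
    refine h1.congr fun N => ?_
    simp only [Function.comp, slope_def_field, hτ0, sub_zero]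
  have hτlim : Tendsto (fun N => τ (δ N)) atTop (𝓝 0) := by
    have h1 := (hder.continuousAt.tendsto).comp hδlim
    rw [hτ0] at h1
    exact h1
  set b : ℕ → ℝ := fun N => -((τ (δ N) / δ N) * (g ⬝ᵥ (s⁻¹ • (B *ᵥ t)))) -
    nr g * ((τ (δ N) / δ N) * τ (δ N) / (2 * s)) with hb
  have hblim : Tendsto b atTop (𝓝 (-((h ⬝ᵥ t) * (g ⬝ᵥ (s⁻¹ • (B *ᵥ t)))))) := by
    have h1 : Tendsto b atTop (𝓝 (-((h ⬝ᵥ t) * (g ⬝ᵥ (s⁻¹ • (B *ᵥ t)))) -
        nr g * ((h ⬝ᵥ t) * 0 / (2 * s)))) :=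
      (hslope.mul_const _).neg.sub (((hslope.mul hτlim).div_const _).const_mul _)
    simpa using h1
  have hble : ∀ N : ℕ, ENNReal.ofReal (b N) ≤ Theta Abar ε (N + 1) (x, (h, g)) := by
    intro N
    refine ENNReal.ofReal_le_ofReal ?_
    simp only
    have hdec := decrease Abar x h v t hvu ht (δ N) hs0 hsε hmin
    rw [← hB, ← hs] at hdec
    have hc : 0 ≤ nr g / δ N := div_nonneg (nr_nonneg g) (hδpos N).le
    have h1 := mul_le_mul_of_nonneg_left hdec hc
    have h2 : nr g / δ N * (F Abar ε 0 x h v - F Abar ε (δ N) x h v) =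
        ((N + 1 : ℕ) : ℝ) / (2 * Real.pi) * (nr g * (F Abar ε 0 x h v - F Abar ε (δ N) x h v)) := by
      simp only [hδ]
      field_simp
    have h3 : nr g * (v ⬝ᵥ (B *ᵥ t)) = g ⬝ᵥ (B *ᵥ t) := by
      rw [hv, dir, smul_dotProduct, smul_eq_mul]
      have := (nr_pos hg).ne'
      field_simp
    rw [h2] at h1
    refine le_trans (le_of_eq ?_) h1
    have hδ0 := (hδpos N).ne'
    have hs0' : s ≠ 0 := hs0.ne'
    simp only [hb, dotProduct_smul, smul_eq_mul, ← h3]
    rw [show ((Real.cos (δ N) - 1) • (v ᵥ* mx x) + Real.sin (δ N) • h) ⬝ᵥ t = τ (δ N) from rfl]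
    field_simp
  calc ENNReal.ofReal (-((h ⬝ᵥ t) * (g ⬝ᵥ (s⁻¹ • (B *ᵥ t)))))
      = liminf (fun N => ENNReal.ofReal (b N)) atTop :=
        ((ENNReal.continuous_ofReal.tendsto _).comp hblim).liminf_eq.symm
    _ ≤ _ := liminf_le_liminf (Filter.Eventually.of_forall hble)

/-- Small-ball bound with the sharp constant. -/
theorem main_bound (hn : 0 < n) (Abar : Matrix (Fin n) (Fin n) ℝ) {ε : ℝ} (hε : 0 ≤ ε) :
    gam (Fin n × Fin n) {x | 0 < smin (Abar + mx x) ∧ smin (Abar + mx x) ≤ ε} ≤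
      ENNReal.ofReal (Real.sqrt n * ε) := by
  have hpi := Real.pi_pos
  set μ := gam (Fin n × Fin n) with hμ
  set γ := gam (Fin n) with hγ
  set E : Set (Fin n × Fin n → ℝ) := {x | 0 < smin (Abar + mx x) ∧ smin (Abar + mx x) ≤ ε} with hE
  have hms : Measurable fun x : Fin n × Fin n → ℝ => smin (Abar + mx x) :=
    meas_smin hn (continuous_const.add continuous_mx)
  have hEm : MeasurableSet E :=
    (measurableSet_lt measurable_const hms).inter (measurableSet_le hms measurable_const)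
  -- Fatou
  have h1 : ∫⁻ z, liminf (fun N : ℕ => Theta Abar ε (N + 1) z) atTop ∂(μ.prod (γ.prod γ)) ≤
      ENNReal.ofReal (Real.sqrt n * ε / Real.pi) := by
    refine (lintegral_liminf_le fun N => meas_Theta hn Abar ε (N + 1)).trans ?_
    refine liminf_le_of_frequently_le' (Filter.Eventually.of_forall fun N => ?_).frequently
    exact upper hn Abar hε (N + 1) (Nat.succ_pos N)
  have hmL : Measurable fun z : (Fin n × Fin n → ℝ) × ((Fin n → ℝ) × (Fin n → ℝ)) =>
      liminf (fun N : ℕ => Theta Abar ε (N + 1) z) atTop :=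
    Measurable.liminf fun N => meas_Theta hn Abar ε (N + 1)
  rw [lintegral_prod _ hmL.aemeasurable] at h1
  have h2 : ∀ x : Fin n × Fin n → ℝ, E.indicator (fun _ => ENNReal.ofReal (1 / Real.pi)) x ≤
      ∫⁻ w, liminf (fun N : ℕ => Theta Abar ε (N + 1) (x, w)) atTop ∂(γ.prod γ) := by
    intro x
    by_cases hx : x ∈ E
    · rw [indicator_of_mem hx]
      obtain ⟨hs0, hsε⟩ := hx
      obtain ⟨t, ht, hmin, -⟩ := exists_min hn (Abar + mx x)
      set s := smin (Abar + mx x) with hs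
      set u := s⁻¹ • ((Abar + mx x) *ᵥ t) with hu
      have huu : u ⬝ᵥ u = 1 := by
        rw [hu, smul_dotProduct, dotProduct_smul, smul_eq_mul, smul_eq_mul, ← nA_sq, hmin]
        field_simp
      rw [← lintegral_cross (ht : t ⬝ᵥ t = 1) huu]
      have hne : ∀ᵐ w : (Fin n → ℝ) × (Fin n → ℝ) ∂(γ.prod γ), w.2 ≠ 0 := by
        have h3 : γ {g | g ⬝ᵥ u = 0} = 0 := by
          have h4 : ((gam (Fin n)).map (fun h => h ⬝ᵥ u)) {0} = gaussianReal 0 1 {(0 : ℝ)} := by
            rw [law_dot huu]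
          have hmd : Measurable fun h : Fin n → ℝ => h ⬝ᵥ u :=
            (Continuous.dotProduct continuous_id continuous_const).measurable
          rw [Measure.map_apply hmd (measurableSet_singleton 0)] at h4
          have h5 : gaussianReal 0 1 {(0 : ℝ)} = 0 := by
            have := nullSingletonClass_gaussianReal (μ := 0) (v := 1) one_ne_zero
            exact measure_singleton 0
          rw [h5] at h4
          exact h4
        have h6 : ∀ᵐ g ∂γ, g ≠ 0 := by
          rw [ae_iff]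
          refine measure_mono_null ?_ h3
          intro g hg
          simp only [ne_eq, not_not, mem_ofPred_eq] at hg
          simp [hg]
        have h7 : MeasurePreserving (Prod.snd : (Fin n → ℝ) × (Fin n → ℝ) → _) (γ.prod γ) γ :=
          measurePreserving_snd
        exact h7.quasiMeasurePreserving.ae h6
      refine lintegral_mono_ae ?_
      filter_upwards [hne] with w hw
      have := liminf_lower Abar x w.1 w.2 t hw ht hs0 hsε hmin
      simpa [hu] using this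
    · rw [indicator_of_notMem hx]
      exact zero_le
  have h3 := (lintegral_mono h2).trans h1
  rw [lintegral_indicator hEm, lintegral_const, Measure.restrict_apply_univ] at h3
  have h4 : μ E = ENNReal.ofReal Real.pi * (ENNReal.ofReal (1 / Real.pi) * μ E) := by
    rw [← mul_assoc, ← ENNReal.ofReal_mul hpi.le]
    rw [show Real.pi * (1 / Real.pi) = 1 by field_simp]
    simp
  rw [h4]
  calc ENNReal.ofReal Real.pi * (ENNReal.ofReal (1 / Real.pi) * μ E)
      ≤ ENNReal.ofReal Real.pi * ENNReal.ofReal (Real.sqrt n * ε / Real.pi) :=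
        mul_le_mul_right h3 _
    _ = ENNReal.ofReal (Real.sqrt n * ε) := by
        rw [← ENNReal.ofReal_mul hpi.le]
        congr 1
        field_simp

end Pool.Agent.TH551.SV
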