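import Mathlib

/-! Sign changes of trigonometric polynomials of degree two at equally spaced points, and
the resulting bound on the variation of a cyclic sequence. -/

set_option autoImplicit false
open MeasureTheory Set Polynomial

namespace Pool.Agent.TH551.SV

/-- The polynomial `z² Q` attached to a trigonometric polynomial of degree two. -/
noncomputable def tpoly (c0 c1 c2 c3 c4 c5 : ℝ) : ℂ[X] :=
  C (c0 : ℂ) * X ^ 2 + C ((c1 : ℂ) / 2) * (X ^ 3 + X) + C ((c2 : ℂ) / (2 * Complex.I)) * (X ^ 3 - X)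
    + C ((c3 : ℂ) / 4) * (X ^ 4 + 2 * X ^ 2 + 1) + C ((c4 : ℂ) / (4 * Complex.I)) * (X ^ 4 - 1)
    - C ((c5 : ℂ) / 4) * (X ^ 4 - 2 * X ^ 2 + 1)

lemma tpoly_natDegree (c0 c1 c2 c3 c4 c5 : ℝ) : (tpoly c0 c1 c2 c3 c4 c5).natDegree ≤ 4 := by
  unfold tpoly
  compute_degree

lemma tpoly_eval (c0 c1 c2 c3 c4 c5 θ : ℝ) :
    (tpoly c0 c1 c2 c3 c4 c5).eval (Complex.exp (θ * Complex.I)) =
      Complex.exp (θ * Complex.I) ^ 2 *
        ((c0 + c1 * Real.cos θ + c2 * Real.sin θ + c3 * Real.cos θ ^ 2 +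
          c4 * (Real.cos θ * Real.sin θ) + c5 * Real.sin θ ^ 2 : ℝ) : ℂ) := by
  have h1 : Complex.exp (θ * Complex.I) = Complex.cos θ + Complex.sin θ * Complex.I :=
    Complex.exp_mul_I _
  have hcs : Complex.cos θ ^ 2 + Complex.sin θ ^ 2 = 1 := Complex.cos_sq_add_sin_sq _
  have hI : Complex.I ≠ 0 := Complex.I_ne_zero
  have hI2 : Complex.I ^ 2 = -1 := Complex.I_sq
  simp only [tpoly, eval_add, eval_sub, eval_mul, eval_C, eval_pow, eval_X, eval_one, eval_ofNat]
  push_cast
  set z := Complex.exp (θ * Complex.I) with hz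
  set c := Complex.cos θ with hc
  set s := Complex.sin θ with hs
  -- `z = c + s I`, `z * (c - s I) = 1`
  have hz1 : z = c + s * Complex.I := h1
  have hw : z * (c - s * Complex.I) = 1 := by
    rw [hz1]; linear_combination hcs + (-s ^ 2) * hI2
  have e1 : z ^ 3 + z = 2 * z ^ 2 * c := by
    have : z ^ 3 + z = z ^ 2 * (z + (c - s * Complex.I)) := by
      linear_combination (-z) * hw
    rw [this, hz1]; ring
  have e2 : z ^ 3 - z = 2 * z ^ 2 * s * Complex.I := by
    have : z ^ 3 - z = z ^ 2 * (z - (c - s * Complex.I)) := by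
      linear_combination (z) * hw
    rw [this, hz1]; ring
  have hzz : z ≠ 0 := by rw [hz]; exact Complex.exp_ne_zero _
  have e1' : z ^ 2 + 1 = 2 * z * c := by
    apply mul_left_cancel₀ hzz; linear_combination e1
  have e2' : z ^ 2 - 1 = 2 * z * s * Complex.I := by
    apply mul_left_cancel₀ hzz; linear_combination e2
  have e3 : z ^ 4 + 2 * z ^ 2 + 1 = 4 * z ^ 2 * c ^ 2 := by
    linear_combination (z ^ 2 + 1 + 2 * z * c) * e1'
  have e4 : z ^ 4 - 1 = 4 * Complex.I * z ^ 2 * (c * s) := by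
    linear_combination (z ^ 2 - 1) * e1' + (2 * z * c) * e2'
  have e5 : z ^ 4 - 2 * z ^ 2 + 1 = -(4 * z ^ 2 * s ^ 2) := by
    linear_combination (z ^ 2 - 1 + 2 * z * s * Complex.I) * e2' + (4 * z ^ 2 * s ^ 2) * hI2
  rw [e1, e2, e3, e4, e5]
  field_simp
  ring

theorem trig_changes (c0 c1 c2 c3 c4 c5 : ℝ) (N : ℕ) (hN : 0 < N) (Q : ℝ → ℝ)
    (hQ : ∀ θ, Q θ = c0 + c1 * Real.cos θ + c2 * Real.sin θ + c3 * Real.cos θ ^ 2 +
          c4 * (Real.cos θ * Real.sin θ) + c5 * Real.sin θ ^ 2) (δ : ℝ)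
    (hδ : δ = 2 * Real.pi / N) :
    ((Finset.range N).filter
      (fun k : ℕ => ¬ (0 < Q (k * δ) ↔ 0 < Q ((k + 1 : ℕ) * δ)))).card ≤ 4 := by
  classical
  have hNr : (0 : ℝ) < N := by exact_mod_cast hN
  have hδ0 : 0 < δ := by rw [hδ]; positivity
  obtain ⟨η, hη0, hη⟩ : ∃ η : ℝ, 0 < η ∧ ∀ k ∈ Finset.range (N + 1),
      0 < Q ((k : ℕ) * δ) → η < Q ((k : ℕ) * δ) := by
    have h1 : ∀ᶠ η in nhdsWithin (0 : ℝ) (Ioi 0), ∀ k ∈ Finset.range (N + 1),
        0 < Q ((k : ℕ) * δ) → η < Q ((k : ℕ) * δ) := by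
      rw [Filter.eventually_all_finset]
      intro k _
      by_cases h : 0 < Q ((k : ℕ) * δ)
      · filter_upwards [Ioo_mem_nhdsGT h] with η hη _ using hη.2
      · exact Filter.Eventually.of_forall fun η h' => absurd h' h
    obtain ⟨η, h2, h3⟩ := (h1.and self_mem_nhdsWithin).exists
    exact ⟨η, h3, h2⟩
  set K := (Finset.range N).filter
      (fun k : ℕ => ¬ (0 < Q (k * δ) ↔ 0 < Q ((k + 1 : ℕ) * δ))) with hK
  have hcont : Continuous Q := by
    have : Q = fun θ => c0 + c1 * Real.cos θ + c2 * Real.sin θ + c3 * Real.cos θ ^ 2 +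
          c4 * (Real.cos θ * Real.sin θ) + c5 * Real.sin θ ^ 2 := funext hQ
    rw [this]; fun_prop
  have hroot : ∀ k ∈ K, ∃ z ∈ Ioo ((k : ℝ) * δ) (((k + 1 : ℕ) : ℝ) * δ), Q z = η := by
    intro k hk
    rw [hK, Finset.mem_filter, Finset.mem_range] at hk
    obtain ⟨hk1, hk2⟩ := hk
    have hle : (k : ℝ) * δ ≤ ((k + 1 : ℕ) : ℝ) * δ := by
      push_cast; nlinarith
    have ha := hη k (Finset.mem_range.mpr (by omega))
    have hb := hη (k + 1) (Finset.mem_range.mpr (by omega))
    by_cases h1 : 0 < Q ((k : ℝ) * δ)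
    · have h2 : ¬ 0 < Q (((k + 1 : ℕ) : ℝ) * δ) := fun h => hk2 ⟨fun _ => h, fun _ => h1⟩
      have h3 := intermediate_value_Ioo' hle hcont.continuousOn
      exact h3 ⟨by linarith [not_lt.mp h2], ha h1⟩
    · have h2 : 0 < Q (((k + 1 : ℕ) : ℝ) * δ) := by
        by_contra h
        exact hk2 ⟨fun h' => absurd h' h1, fun h' => absurd h' h⟩
      have h3 := intermediate_value_Ioo hle hcont.continuousOn
      exact h3 ⟨by linarith [not_lt.mp h1], hb h2⟩
  choose! z hz1 hz2 using hroot
  rcases K.eq_empty_or_nonempty with h0 | ⟨k0, hk0⟩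
  · rw [h0]; simp
  set P := tpoly (c0 - η) c1 c2 c3 c4 c5 with hP
  have hev : ∀ θ : ℝ, P.eval (Complex.exp (θ * Complex.I)) =
      Complex.exp (θ * Complex.I) ^ 2 * ((Q θ - η : ℝ) : ℂ) := by
    intro θ
    rw [hP, tpoly_eval, hQ θ]
    congr 2
    ring
  have hP0 : P ≠ 0 := by
    intro h
    have h1 := hev ((k0 : ℝ) * δ)
    rw [h, eval_zero] at h1
    have h2 : ((Q ((k0 : ℝ) * δ) - η : ℝ) : ℂ) = 0 := by
      rcases mul_eq_zero.mp h1.symm with h3 | h3
      · exact absurd h3 (pow_ne_zero _ (Complex.exp_ne_zero _))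
      · exact h3
    have h3 : Q ((k0 : ℝ) * δ) - η = 0 := by exact_mod_cast h2
    have hk : k0 < N := by
      have := hk0
      rw [hK, Finset.mem_filter, Finset.mem_range] at this
      exact this.1
    have ha := hη k0 (Finset.mem_range.mpr (by omega))
    have h4 : Q ((k0 : ℝ) * δ) = η := by linarith
    have h5 := ha (by rw [h4]; exact hη0)
    linarith
  have hcard : K.card ≤ P.roots.toFinset.card := by
    refine Finset.card_le_card_of_injOn (fun k => Complex.exp ((z k : ℝ) * Complex.I)) ?_ ?_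
    · intro k hk
      simp only [Finset.coe_sort_coe, Finset.mem_coe] at hk ⊢
      rw [Multiset.mem_toFinset, mem_roots hP0, IsRoot.def, hev, hz2 k hk]
      simp
    · intro k hk l hl hkl
      have hk' := hz1 k hk
      have hl' := hz1 l hl
      have hkN : k < N := by
        have := hk
        rw [Finset.mem_coe, hK, Finset.mem_filter, Finset.mem_range] at this
        exact this.1
      have hlN : l < N := by
        have := hl
        rw [Finset.mem_coe, hK, Finset.mem_filter, Finset.mem_range] at this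
        exact this.1
      have hkl' : Complex.exp ((z k : ℝ) * Complex.I) = Complex.exp ((z l : ℝ) * Complex.I) := hkl
      rw [Complex.exp_eq_exp_iff_exists_int] at hkl'
      obtain ⟨m, hm⟩ := hkl'
      have hm' : z k = z l + m * (2 * Real.pi) := by
        have h1 : ((z k : ℝ) : ℂ) * Complex.I = ((z l + m * (2 * Real.pi) : ℝ) : ℂ) * Complex.I := by
          rw [hm]; push_cast; ring
        exact_mod_cast mul_right_cancel₀ Complex.I_ne_zero h1
      have hND : (N : ℝ) * δ = 2 * Real.pi := by rw [hδ]; field_simp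
      have hkN' : ((k + 1 : ℕ) : ℝ) * δ ≤ 2 * Real.pi := by
        rw [← hND]
        apply mul_le_mul_of_nonneg_right _ hδ0.le
        exact_mod_cast hkN
      have hlN' : ((l + 1 : ℕ) : ℝ) * δ ≤ 2 * Real.pi := by
        rw [← hND]
        apply mul_le_mul_of_nonneg_right _ hδ0.le
        exact_mod_cast hlN
      have hk0' : 0 ≤ (k : ℝ) * δ := by positivity
      have hl0' : 0 ≤ (l : ℝ) * δ := by positivity
      have hpi := Real.pi_pos
      have hm0 : m = 0 := by
        have h1 : |(m : ℝ)| < 1 := by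
          rw [abs_lt]
          constructor
          · nlinarith [hk'.1, hl'.2]
          · nlinarith [hk'.2, hl'.1]
        have h2 : |m| < 1 := by exact_mod_cast h1
        exact Int.abs_lt_one_iff.mp h2
      rw [hm0] at hm'
      have hzz : z k = z l := by simpa using hm'
      by_contra hne
      rcases lt_or_gt_of_ne hne with h | h
      · have : ((k + 1 : ℕ) : ℝ) * δ ≤ (l : ℝ) * δ := by
          apply mul_le_mul_of_nonneg_right _ hδ0.le
          exact_mod_cast h
        linarith [hk'.2, hl'.1]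
      · have : ((l + 1 : ℕ) : ℝ) * δ ≤ (k : ℝ) * δ := by
          apply mul_le_mul_of_nonneg_right _ hδ0.le
          exact_mod_cast h
        linarith [hl'.2, hk'.1]
  calc K.card ≤ P.roots.toFinset.card := hcard
    _ ≤ Multiset.card P.roots := Multiset.toFinset_card_le _
    _ ≤ P.natDegree := P.card_roots'
    _ ≤ 4 := tpoly_natDegree _ _ _ _ _ _

theorem variation_bound (N : ℕ) (ψ : ℕ → ℝ) (ε : ℝ) (h0 : ∀ k, 0 ≤ ψ k)
    (h1 : ∀ k, ψ k ≤ ε) (hcyc : ψ N = ψ 0)
    (hlev : ∀ τ, 0 ≤ τ → τ < ε →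
      ((Finset.range N).filter (fun k => ¬ (τ < ψ k ↔ τ < ψ (k + 1)))).card ≤ 4) :
    ∑ k ∈ Finset.range N, max (ψ k - ψ (k + 1)) 0 ≤ 2 * ε := by
  classical
  have hε : 0 ≤ ε := (h0 0).trans (h1 0)
  have key : ∑ k ∈ Finset.range N, |ψ k - ψ (k + 1)| ≤ 4 * ε := by
    have h2 : ENNReal.ofReal (∑ k ∈ Finset.range N, |ψ k - ψ (k + 1)|) ≤
        ENNReal.ofReal (4 * ε) := by
      rw [ENNReal.ofReal_sum_of_nonneg (fun _ _ => abs_nonneg _)]
      have h3 : ∀ k, ENNReal.ofReal |ψ k - ψ (k + 1)| =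
          ∫⁻ τ : ℝ, (Ico (min (ψ k) (ψ (k + 1))) (max (ψ k) (ψ (k + 1)))).indicator 1 τ := by
        intro k
        rw [lintegral_indicator_one measurableSet_Ico, Real.volume_Ico, max_sub_min_eq_abs]
        rw [abs_sub_comm]
      simp_rw [h3]
      rw [← lintegral_finsetSum]
      · have h4 : ∀ τ : ℝ, ∑ k ∈ Finset.range N,
            (Ico (min (ψ k) (ψ (k + 1))) (max (ψ k) (ψ (k + 1)))).indicator (1 : ℝ → ENNReal) τ ≤
            (Ico 0 ε).indicator (fun _ => (4 : ENNReal)) τ := by
          intro τ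
          by_cases hτ : τ ∈ Ico 0 ε
          · rw [indicator_of_mem hτ]
            have h5 : ∑ k ∈ Finset.range N,
                (Ico (min (ψ k) (ψ (k + 1))) (max (ψ k) (ψ (k + 1)))).indicator
                  (1 : ℝ → ENNReal) τ ≤
                ∑ k ∈ Finset.range N, (if ¬ (τ < ψ k ↔ τ < ψ (k + 1)) then (1 : ENNReal) else 0) := by
              refine Finset.sum_le_sum fun k _ => ?_
              by_cases hm : τ ∈ Ico (min (ψ k) (ψ (k + 1))) (max (ψ k) (ψ (k + 1)))
              · rw [indicator_of_mem hm, if_pos]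
                · rfl
                · rw [mem_Ico, min_le_iff, lt_max_iff] at hm
                  intro hiff
                  rcases hm with ⟨h6 | h6, h7 | h7⟩
                  · exact absurd h7 (not_lt.mpr h6)
                  · exact absurd (hiff.mpr h7) (not_lt.mpr h6)
                  · exact absurd (hiff.mp h7) (not_lt.mpr h6)
                  · exact absurd h7 (not_lt.mpr h6)
              · rw [indicator_of_notMem hm]
                exact zero_le
            refine h5.trans ?_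
            rw [← Finset.sum_filter, Finset.sum_const, nsmul_eq_mul, mul_one]
            exact_mod_cast hlev τ hτ.1 hτ.2
          · have h6 : ∀ k ∈ Finset.range N,
                (Ico (min (ψ k) (ψ (k + 1))) (max (ψ k) (ψ (k + 1)))).indicator
                  (1 : ℝ → ENNReal) τ = 0 := by
              intro k _
              rw [indicator_of_notMem]
              intro hm
              apply hτ
              exact ⟨(le_min (h0 k) (h0 (k + 1))).trans hm.1,
                hm.2.trans_le (max_le (h1 k) (h1 (k + 1)))⟩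
            rw [Finset.sum_eq_zero h6]
            exact zero_le
        refine (lintegral_mono h4).trans ?_
        rw [lintegral_indicator measurableSet_Ico, lintegral_const, Measure.restrict_apply_univ,
          Real.volume_Ico, sub_zero, ENNReal.ofReal_mul (by norm_num)]
        norm_num
      · intro k _
        exact measurable_one.indicator measurableSet_Ico
    exact (ENNReal.ofReal_le_ofReal_iff (by positivity)).mp h2
  have h5 : ∀ x : ℝ, max x 0 = (|x| + x) / 2 := by
    intro x
    rcases le_total 0 x with h | h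
    · rw [max_eq_left h, abs_of_nonneg h]; ring
    · rw [max_eq_right h, abs_of_nonpos h]; ring
  simp_rw [h5]
  rw [← Finset.sum_div, Finset.sum_add_distrib]
  have h6 : ∑ k ∈ Finset.range N, (ψ k - ψ (k + 1)) = ψ 0 - ψ N := Finset.sum_range_sub' _ _
  rw [h6, hcyc]
  linarith

end Pool.Agent.TH551.SV
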