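import Pool.Agent.TH551.SV.Stat

/-! Elementary Gaussian expectations. -/

set_option autoImplicit false
open MeasureTheory Measure Set Matrix ProbabilityTheory
open scoped ENNReal NNReal RealInnerProductSpace

namespace Pool.Agent.TH551.SV

open Pool.Agent.H992R2 (gam)

variable {n : ℕ}

lemma integral_abs_gaussianReal : ∫ x : ℝ, |x| ∂(gaussianReal 0 1) = Real.sqrt (2 / Real.pi) := by
  rw [integral_gaussianReal_eq_integral_smul (by norm_num)]
  have h1 : ∀ x : ℝ, gaussianPDFReal 0 1 x • |x| =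
      (Real.sqrt (2 * Real.pi))⁻¹ * (|x| * Real.exp (-(1 / 2) * |x| ^ 2)) := by
    intro x
    simp only [gaussianPDFReal, smul_eq_mul, NNReal.coe_one, mul_one, sub_zero, sq_abs]
    rw [show -x ^ 2 / 2 = -(1 / 2) * x ^ 2 by ring]
    ring
  simp only [h1]
  rw [integral_const_mul, integral_comp_abs (f := fun x : ℝ => x * Real.exp (-(1 / 2) * x ^ 2))]
  have h := _root_.integral_rpow_mul_exp_neg_mul_rpow (p := 2) (q := 1) (b := 1 / 2)
      (by norm_num) (by norm_num) (by norm_num)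
  have e3 : ∀ r ∈ Set.Ioi (0 : ℝ), r * Real.exp (-(1 / 2) * r ^ 2) =
      (r ^ (1 : ℝ) * Real.exp (-(1 / 2) * r ^ (2 : ℝ))) := by
    intro r _
    rw [Real.rpow_one, Real.rpow_two]
  rw [setIntegral_congr_fun measurableSet_Ioi e3, h]
  norm_num
  have hpi := Real.pi_pos
  have hs : Real.sqrt Real.pi ≠ 0 := (Real.sqrt_pos.mpr hpi).ne'
  have h2 : Real.sqrt 2 * Real.sqrt 2 = 2 := Real.mul_self_sqrt (by norm_num)
  have h3 : Real.sqrt 2 ≠ 0 := by positivity
  field_simp
  rw [pow_two, h2]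

lemma lintegral_neg_gauss (f : ℝ → ℝ≥0∞) (hf : Measurable f) :
    ∫⁻ x, f (-x) ∂(gaussianReal 0 1) = ∫⁻ x, f x ∂(gaussianReal 0 1) := by
  have h1 : (gaussianReal 0 1).map (fun x => -x) = gaussianReal 0 1 := by
    rw [gaussianReal_map_neg]; simp
  conv_rhs => rw [← h1]
  rw [lintegral_map hf measurable_neg]

/-- `E X₊ = 1/√(2π)`. -/
lemma lintegral_pos_gauss :
    ∫⁻ x : ℝ, ENNReal.ofReal x ∂(gaussianReal 0 1) = ENNReal.ofReal (Real.sqrt (2 / Real.pi) / 2) := by
  have hint : Integrable (fun x : ℝ => |x|) (gaussianReal 0 1) := by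
    have h := memLp_id_gaussianReal' (μ := 0) (v := 1) (1 : ℝ≥0∞) (by simp)
    have h2 := (memLp_one_iff_integrable.mp h).norm
    simpa using h2
  have h1 : ∫⁻ x : ℝ, ENNReal.ofReal |x| ∂(gaussianReal 0 1) =
      ENNReal.ofReal (Real.sqrt (2 / Real.pi)) := by
    rw [← integral_abs_gaussianReal, ofReal_integral_eq_lintegral_ofReal hint
      (Filter.Eventually.of_forall fun x => abs_nonneg x)]
  have h2 : ∀ x : ℝ, ENNReal.ofReal |x| = ENNReal.ofReal x + ENNReal.ofReal (-x) := by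
    intro x
    rcases le_total 0 x with h | h
    · rw [abs_of_nonneg h, ENNReal.ofReal_of_nonpos (neg_nonpos.mpr h), add_zero]
    · rw [abs_of_nonpos h, ENNReal.ofReal_of_nonpos h, zero_add]
  simp_rw [h2] at h1
  rw [lintegral_add_left (by fun_prop)] at h1
  have h3 := lintegral_neg_gauss (fun x => ENNReal.ofReal x) (by fun_prop)
  rw [h3] at h1
  set I := ∫⁻ x : ℝ, ENNReal.ofReal x ∂(gaussianReal 0 1) with hI
  have hfin : I ≠ ∞ := by
    intro h
    rw [h] at h1
    simp at h1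
  have h4 : (2 : ℝ) * I.toReal = Real.sqrt (2 / Real.pi) := by
    have := congrArg ENNReal.toReal h1
    rw [ENNReal.toReal_add hfin hfin, ENNReal.toReal_ofReal (Real.sqrt_nonneg _)] at this
    linarith
  rw [← ENNReal.ofReal_toReal hfin]
  congr 1
  linarith

lemma lintegral_neg_prod :
    ∫⁻ z : ℝ × ℝ, ENNReal.ofReal (-(z.1 * z.2)) ∂((gaussianReal 0 1).prod (gaussianReal 0 1)) =
      ENNReal.ofReal (1 / Real.pi) := by
  have h1 : ∀ z : ℝ × ℝ, ENNReal.ofReal (-(z.1 * z.2)) =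
      ENNReal.ofReal z.1 * ENNReal.ofReal (-z.2) + ENNReal.ofReal (-z.1) * ENNReal.ofReal z.2 := by
    rintro ⟨a, b⟩
    simp only
    rcases le_total 0 a with h | h
    · rw [ENNReal.ofReal_of_nonpos (neg_nonpos.mpr h), zero_mul, add_zero, ← ENNReal.ofReal_mul h]
      congr 1; ring
    · rw [ENNReal.ofReal_of_nonpos h, zero_mul, zero_add, ← ENNReal.ofReal_mul (by linarith)]
      congr 1; ring
  simp_rw [h1]
  rw [lintegral_add_left (by fun_prop),
    lintegral_prod_mul (f := fun x => ENNReal.ofReal x) (g := fun y => ENNReal.ofReal (-y))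
      (by fun_prop) (by fun_prop),
    lintegral_prod_mul (f := fun x => ENNReal.ofReal (-x)) (g := fun y => ENNReal.ofReal y)
      (by fun_prop) (by fun_prop)]
  have h3 := lintegral_neg_gauss (fun x => ENNReal.ofReal x) (by fun_prop)
  rw [h3, lintegral_pos_gauss, ← ENNReal.ofReal_mul (by positivity),
    ← ENNReal.ofReal_add (by positivity) (by positivity)]
  congr 1
  have h4 : Real.sqrt (2 / Real.pi) * Real.sqrt (2 / Real.pi) = 2 / Real.pi :=
    Real.mul_self_sqrt (by positivity)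
  have : Real.sqrt (2 / Real.pi) / 2 * (Real.sqrt (2 / Real.pi) / 2) +
      Real.sqrt (2 / Real.pi) / 2 * (Real.sqrt (2 / Real.pi) / 2) =
      Real.sqrt (2 / Real.pi) * Real.sqrt (2 / Real.pi) / 2 := by ring
  rw [this, h4]
  ring

lemma law_dot {t : Fin n → ℝ} (ht : t ⬝ᵥ t = 1) :
    (gam (Fin n)).map (fun h => h ⬝ᵥ t) = gaussianReal 0 1 := by
  set w : EuclideanSpace ℝ (Fin n) := WithLp.toLp 2 t with hw
  have hwn : ‖w‖ = 1 := by
    rw [EuclideanSpace.norm_eq, Real.sqrt_eq_one]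
    simp only [Real.norm_eq_abs, sq_abs]
    simp only [dotProduct] at ht
    rw [← ht]
    refine Finset.sum_congr rfl fun i _ => ?_
    simp [hw, sq]
  have h := IsGaussian.map_eq_gaussianReal (μ := stdGaussian (EuclideanSpace ℝ (Fin n)))
    (innerSL ℝ w)
  rw [integral_strongDual_stdGaussian, variance_dual_stdGaussian, innerSL_apply_norm, hwn] at h
  have h2 : (stdGaussian (EuclideanSpace ℝ (Fin n))).map (fun x => (⟪w, x⟫ : ℝ)) =
      gaussianReal 0 1 := by simpa using h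
  rw [← h2, ← map_pi_eq_stdGaussian, Measure.map_map (by fun_prop)
    (PiLp.volume_preserving_toLp _).measurable]
  congr 1

/-- `E_{h,g} [ -(h·t)(g·u) ]₊ = 1/π`. -/
lemma lintegral_cross {t u : Fin n → ℝ} (ht : t ⬝ᵥ t = 1) (hu : u ⬝ᵥ u = 1) :
    ∫⁻ z : (Fin n → ℝ) × (Fin n → ℝ), ENNReal.ofReal (-((z.1 ⬝ᵥ t) * (z.2 ⬝ᵥ u)))
      ∂((gam (Fin n)).prod (gam (Fin n))) = ENNReal.ofReal (1 / Real.pi) := by
  have hm : ∀ t : Fin n → ℝ, Measurable fun h : Fin n → ℝ => h ⬝ᵥ t := by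
    intro t
    exact (Continuous.dotProduct continuous_id continuous_const).measurable
  have h1 : ((gam (Fin n)).prod (gam (Fin n))).map
      (Prod.map (fun h => h ⬝ᵥ t) (fun h => h ⬝ᵥ u)) =
      (gaussianReal 0 1).prod (gaussianReal 0 1) := by
    rw [← Measure.map_prod_map _ _ (hm t) (hm u), law_dot ht, law_dot hu]
  rw [← lintegral_neg_prod, ← h1, lintegral_map (by fun_prop) ((hm t).prodMap (hm u))]
  rfl

lemma lintegral_sq_gaussian :
    ∫⁻ y, ENNReal.ofReal (y ^ 2) ∂(gaussianReal 0 1) = 1 := by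
  have h1 : MemLp (fun y : ℝ => y) 2 (gaussianReal 0 1) := memLp_id_gaussianReal 2
  have h2 := h1.ofReal_variance_eq
  rw [evariance_eq_lintegral_ofReal] at h2
  have h3 : Var[fun y : ℝ => y; gaussianReal 0 1] = (1 : ℝ≥0) := variance_id_gaussianReal
  have h4 : ∫ y, y ∂(gaussianReal 0 1) = 0 := by simp
  rw [h3, h4] at h2
  simp only [sub_zero, ENNReal.ofReal_coe_nnreal] at h2
  simpa using h2.symm

/-- The Euclidean norm. -/
noncomputable def nr (g : Fin n → ℝ) : ℝ := Real.sqrt (g ⬝ᵥ g)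

lemma lintegral_nr (hn : 0 < n) :
    ∫⁻ g, ENNReal.ofReal (nr g) ∂(gam (Fin n)) ≤ ENNReal.ofReal (Real.sqrt n) := by
  have hnr : (0 : ℝ) < n := by exact_mod_cast hn
  have hs : 0 < Real.sqrt n := Real.sqrt_pos.mpr hnr
  have hss : Real.sqrt n * Real.sqrt n = n := Real.mul_self_sqrt hnr.le
  have h1 : ∀ g : Fin n → ℝ, nr g ≤ (g ⬝ᵥ g) * (1 / (2 * Real.sqrt n)) + Real.sqrt n / 2 := by
    intro g
    have h2 : nr g ^ 2 = g ⬝ᵥ g := Real.sq_sqrt (dot_self_nonneg g)
    rw [← h2]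
    have h3 : 0 ≤ (nr g - Real.sqrt n) ^ 2 := sq_nonneg _
    have h4 : nr g ^ 2 * (1 / (2 * Real.sqrt n)) + Real.sqrt n / 2 - nr g =
        (nr g - Real.sqrt n) ^ 2 / (2 * Real.sqrt n) := by
      field_simp
      ring
    have h5 : 0 ≤ (nr g - Real.sqrt n) ^ 2 / (2 * Real.sqrt n) := by positivity
    linarith
  have h6 : ∫⁻ g : Fin n → ℝ, ENNReal.ofReal (g ⬝ᵥ g) ∂(gam (Fin n)) = n := by
    have h7 : ∀ g : Fin n → ℝ, ENNReal.ofReal (g ⬝ᵥ g) = ∑ i, ENNReal.ofReal (g i ^ 2) := by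
      intro g
      rw [← ENNReal.ofReal_sum_of_nonneg (fun i _ => sq_nonneg _)]
      congr 1
      simp only [dotProduct]
      exact Finset.sum_congr rfl fun i _ => by ring
    simp_rw [h7]
    rw [lintegral_finsetSum _ (fun i _ => by fun_prop)]
    have h8 : ∀ i : Fin n, ∫⁻ g : Fin n → ℝ, ENNReal.ofReal (g i ^ 2) ∂(gam (Fin n)) = 1 := by
      intro i
      have h9 := (measurePreserving_eval (fun _ : Fin n => gaussianReal 0 1) i).lintegral_comp
        (f := fun y => ENNReal.ofReal (y ^ 2)) (by fun_prop)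
      rw [← lintegral_sq_gaussian, ← h9]
    simp_rw [h8]
    simp
  calc ∫⁻ g, ENNReal.ofReal (nr g) ∂(gam (Fin n))
      ≤ ∫⁻ g : Fin n → ℝ, (ENNReal.ofReal (g ⬝ᵥ g) * ENNReal.ofReal (1 / (2 * Real.sqrt n)) +
          ENNReal.ofReal (Real.sqrt n / 2)) ∂(gam (Fin n)) := by
        refine lintegral_mono fun g => ?_
        simp only
        rw [← ENNReal.ofReal_mul (dot_self_nonneg g), ← ENNReal.ofReal_add
          (mul_nonneg (dot_self_nonneg g) (by positivity)) (by positivity)]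
        exact ENNReal.ofReal_le_ofReal (h1 g)
    _ = ENNReal.ofReal (Real.sqrt n) := by
        have hmeas : Measurable fun g : Fin n → ℝ => ENNReal.ofReal (g ⬝ᵥ g) :=
          (Continuous.dotProduct continuous_id continuous_id).measurable.ennreal_ofReal
        rw [lintegral_add_right _ measurable_const, lintegral_mul_const _ hmeas, h6,
          lintegral_const, measure_univ, mul_one]
        rw [← ENNReal.ofReal_natCast, ← ENNReal.ofReal_mul (by positivity),
          ← ENNReal.ofReal_add (by positivity) (by positivity)]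
        congr 1
        field_simp
        nlinarith [hss]

end Pool.Agent.TH551.SV
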