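import Pool.Agent.TH551.SV.Count

/-! The least singular value of a matrix, and its level sets along a path moving one row on an
ellipse. -/

set_option autoImplicit false
open MeasureTheory Set Matrix

namespace Pool.Agent.TH551.SV

variable {n : ℕ}

/-- The unit sphere. -/
def usph (n : ℕ) : Set (Fin n → ℝ) := {t | t ⬝ᵥ t = 1}

/-- `‖A t‖`. -/
noncomputable def nA (A : Matrix (Fin n) (Fin n) ℝ) (t : Fin n → ℝ) : ℝ :=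
  Real.sqrt ((A *ᵥ t) ⬝ᵥ (A *ᵥ t))

/-- The least singular value. -/
noncomputable def smin (A : Matrix (Fin n) (Fin n) ℝ) : ℝ := sInf (nA A '' usph n)

lemma dot_self_nonneg (t : Fin n → ℝ) : 0 ≤ t ⬝ᵥ t := by
  simp only [dotProduct]
  exact Finset.sum_nonneg fun i _ => mul_self_nonneg _

lemma nA_nonneg (A : Matrix (Fin n) (Fin n) ℝ) (t : Fin n → ℝ) : 0 ≤ nA A t := Real.sqrt_nonneg _

lemma nA_sq (A : Matrix (Fin n) (Fin n) ℝ) (t : Fin n → ℝ) :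
    nA A t ^ 2 = (A *ᵥ t) ⬝ᵥ (A *ᵥ t) := Real.sq_sqrt (dot_self_nonneg _)

lemma continuous_nA (A : Matrix (Fin n) (Fin n) ℝ) : Continuous (nA A) := by
  unfold nA
  apply Real.continuous_sqrt.comp
  have h : Continuous fun t : Fin n → ℝ => A *ᵥ t := Continuous.matrix_mulVec continuous_const continuous_id
  exact Continuous.dotProduct h h

lemma isCompact_usph : IsCompact (usph n) := by
  have h1 : IsClosed (usph n) :=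
    isClosed_eq (Continuous.dotProduct continuous_id continuous_id) continuous_const
  refine (isCompact_univ_pi (fun _ : Fin n => isCompact_Icc (a := (-1 : ℝ)) (b := 1))).of_isClosed_subset
    h1 ?_
  intro t ht i _
  have h2 : t i * t i ≤ t ⬝ᵥ t := by
    simp only [dotProduct]
    exact Finset.single_le_sum (f := fun i => t i * t i) (fun j _ => mul_self_nonneg _) (Finset.mem_univ i)
  have h3 : t ⬝ᵥ t = 1 := ht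
  rw [h3] at h2
  constructor <;> nlinarith

lemma usph_nonempty (hn : 0 < n) : (usph n).Nonempty := by
  refine ⟨Pi.single ⟨0, hn⟩ 1, ?_⟩
  simp [usph]

lemma exists_min (hn : 0 < n) (A : Matrix (Fin n) (Fin n) ℝ) :
    ∃ t ∈ usph n, nA A t = smin A ∧ ∀ t' ∈ usph n, smin A ≤ nA A t' := by
  obtain ⟨t, ht, hmin⟩ := isCompact_usph.exists_isMinOn (usph_nonempty hn) (continuous_nA A).continuousOn
  have h1 : IsLeast (nA A '' usph n) (nA A t) := by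
    refine ⟨⟨t, ht, rfl⟩, ?_⟩
    rintro _ ⟨t', ht', rfl⟩
    exact hmin ht'
  have h2 : smin A = nA A t := h1.csInf_eq
  exact ⟨t, ht, h2.symm, fun t' ht' => by rw [h2]; exact hmin ht'⟩

lemma smin_le {A : Matrix (Fin n) (Fin n) ℝ} {t : Fin n → ℝ} (ht : t ∈ usph n) :
    smin A ≤ nA A t := by
  refine csInf_le ⟨0, ?_⟩ ⟨t, ht, rfl⟩
  rintro _ ⟨t', _, rfl⟩
  exact nA_nonneg _ _

lemma smin_nonneg (A : Matrix (Fin n) (Fin n) ℝ) : 0 ≤ smin A := by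
  refine Real.sInf_nonneg ?_
  rintro _ ⟨t', _, rfl⟩
  exact nA_nonneg _ _

lemma dot_self_pos {t : Fin n → ℝ} (ht : t ≠ 0) : 0 < t ⬝ᵥ t := by
  rcases (dot_self_nonneg t).lt_or_eq with h | h
  · exact h
  · exact absurd (dotProduct_self_eq_zero.mp h.symm) ht

lemma nA_smul (A : Matrix (Fin n) (Fin n) ℝ) (c : ℝ) (t : Fin n → ℝ) :
    (A *ᵥ (c • t)) ⬝ᵥ (A *ᵥ (c • t)) = c ^ 2 * ((A *ᵥ t) ⬝ᵥ (A *ᵥ t)) := by
  rw [mulVec_smul, smul_dotProduct, dotProduct_smul, smul_eq_mul, smul_eq_mul]; ring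

lemma normalize_mem {t : Fin n → ℝ} (ht : t ≠ 0) :
    (Real.sqrt (t ⬝ᵥ t))⁻¹ • t ∈ usph n := by
  have h := dot_self_pos ht
  have h2 : Real.sqrt (t ⬝ᵥ t) ≠ 0 := (Real.sqrt_pos.mpr h).ne'
  show _ ⬝ᵥ _ = (1 : ℝ)
  rw [smul_dotProduct, dotProduct_smul, smul_eq_mul, smul_eq_mul]
  nth_rw 3 [← Real.mul_self_sqrt h.le]
  field_simp

lemma lt_smin_iff (hn : 0 < n) {A : Matrix (Fin n) (Fin n) ℝ} {τ : ℝ} (hτ : 0 ≤ τ) :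
    τ < smin A ↔ ∀ t : Fin n → ℝ, t ≠ 0 → τ ^ 2 * (t ⬝ᵥ t) < (A *ᵥ t) ⬝ᵥ (A *ᵥ t) := by
  constructor
  · intro h t ht
    have h1 := smin_le (A := A) (normalize_mem ht)
    have h2 : τ < nA A ((Real.sqrt (t ⬝ᵥ t))⁻¹ • t) := h.trans_le h1
    have h3 : τ ^ 2 < nA A ((Real.sqrt (t ⬝ᵥ t))⁻¹ • t) ^ 2 := by
      apply pow_lt_pow_left₀ h2 hτ two_ne_zero
    rw [nA_sq, nA_smul, inv_pow, Real.sq_sqrt (dot_self_nonneg t)] at h3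
    have h4 := dot_self_pos ht
    rw [inv_mul_eq_div, lt_div_iff₀ h4] at h3
    exact h3
  · intro h
    obtain ⟨t, ht, h1, -⟩ := exists_min hn A
    have ht0 : t ≠ 0 := by
      rintro rfl
      have : (0 : Fin n → ℝ) ⬝ᵥ 0 = 1 := ht
      simp at this
    have h2 := h t ht0
    have h3 : t ⬝ᵥ t = 1 := ht
    rw [h3, mul_one, ← nA_sq, h1] at h2
    exact lt_of_pow_lt_pow_left₀ 2 (smin_nonneg A) h2

/-- The key algebraic lemma: positivity of `T₀ - ρ₀ρ₀ᵀ + ρρᵀ` is governed by one quadratic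
polynomial in `ρ`. -/
lemma rank_one_iff (T : Matrix (Fin n) (Fin n) ℝ) (hsym : Tᵀ = T)
    (hpos : ∀ x : Fin n → ℝ, x ≠ 0 → 0 < x ⬝ᵥ (T *ᵥ x)) (a b : Fin n → ℝ) :
    (∀ t : Fin n → ℝ, t ≠ 0 →
      0 < t ⬝ᵥ (T *ᵥ t) - ((T *ᵥ a) ⬝ᵥ t) ^ 2 + ((T *ᵥ b) ⬝ᵥ t) ^ 2) ↔
    0 < (1 - (T *ᵥ a) ⬝ᵥ a) * (1 + (T *ᵥ b) ⬝ᵥ b) + ((T *ᵥ a) ⬝ᵥ b) ^ 2 := by
  have hB : ∀ x y : Fin n → ℝ, x ⬝ᵥ (T *ᵥ y) = y ⬝ᵥ (T *ᵥ x) := by
    intro x y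
    rw [dotProduct_mulVec, ← mulVec_transpose, hsym, dotProduct_comm]
  have hC : ∀ x y : Fin n → ℝ, (T *ᵥ x) ⬝ᵥ y = y ⬝ᵥ (T *ᵥ x) := fun x y => dotProduct_comm _ _
  have hnn : ∀ x : Fin n → ℝ, 0 ≤ x ⬝ᵥ (T *ᵥ x) := by
    intro x
    by_cases hx : x = 0
    · rw [hx]; simp
    · exact (hpos x hx).le
  simp only [hC]
  set α := a ⬝ᵥ (T *ᵥ a) with hα
  set β := b ⬝ᵥ (T *ᵥ b) with hβ
  set γ := b ⬝ᵥ (T *ᵥ a) with hγ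
  have hγ' : a ⬝ᵥ (T *ᵥ b) = γ := hB a b
  have hα0 : 0 ≤ α := hnn a
  have hβ0 : 0 ≤ β := hnn b
  have hcs : γ ^ 2 ≤ α * β := by
    have h1 := hnn (β • a - γ • b)
    simp only [mulVec_sub, mulVec_smul, sub_dotProduct, dotProduct_sub, smul_dotProduct,
      dotProduct_smul, smul_eq_mul, ← hα, ← hβ, ← hγ, hγ'] at h1
    by_cases hb : β = 0
    · have hb0 : b = 0 := by
        by_contra h
        exact absurd hb (hpos b h).ne'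
      have : γ = 0 := by rw [hγ, hb0]; simp
      rw [this, hb]; simp
    · have hb' : 0 < β := lt_of_le_of_ne hβ0 (Ne.symm hb)
      have h2 : 0 ≤ β * (α * β - γ ^ 2) := by nlinarith [h1]
      have h3 := nonneg_of_mul_nonneg_right h2 hb'
      linarith
  set X := (1 + β) * α - γ ^ 2 with hX
  have hXα : α ≤ X := by rw [hX]; nlinarith
  constructor
  · intro h
    have h1 := h ((1 + β) • a - γ • b)
    simp only [mulVec_sub, mulVec_smul, sub_dotProduct, dotProduct_sub, smul_dotProduct,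
      dotProduct_smul, smul_eq_mul, ← hα, ← hβ, ← hγ, hγ'] at h1
    have h2 : (1 + β) • a - γ • b ≠ 0 → 0 < X * (1 + β - X) := by
      intro h3
      have h4 := h1 h3
      have e : X * (1 + β - X) = (1 + β) * ((1 + β) * α - γ * γ) - γ * ((1 + β) * γ - γ * β) -
          ((1 + β) * α - γ * γ) ^ 2 + ((1 + β) * γ - γ * β) ^ 2 := by
        rw [hX]; ring
      rw [e]
      nlinarith [h4]
    by_cases h3 : (1 + β) • a - γ • b = 0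
    · have h4 : X = 0 := by
        have h5 : ((1 + β) • a - γ • b) ⬝ᵥ (T *ᵥ a) = 0 := by rw [h3]; simp
        simp only [sub_dotProduct, smul_dotProduct, smul_eq_mul, ← hα, ← hγ] at h5
        rw [hX]; linarith
      have h5 : (1 - α) * (1 + β) + γ ^ 2 = 1 + β - X := by rw [hX]; ring
      rw [h5, h4]; linarith
    · have h4 := h2 h3
      have h6 : 0 ≤ X := hα0.trans hXα
      have h7 : 0 < 1 + β - X := by
        by_contra h8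
        push Not at h8
        nlinarith
      nlinarith [h7]
  · intro h t ht
    have hb1 : 0 < 1 + β := by linarith
    set g := γ / (1 + β) with hg
    have hgγ : g * (1 + β) = γ := by rw [hg]; field_simp
    set z := t ⬝ᵥ (T *ᵥ a) with hz
    set s := t ⬝ᵥ (T *ᵥ b) with hs
    have hz' : a ⬝ᵥ (T *ᵥ t) = z := hB a t
    have hs' : b ⬝ᵥ (T *ᵥ t) = s := hB b t
    have hp := hpos t ht
    set p := t ⬝ᵥ (T *ᵥ t) with hp'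
    have h1 := hnn (t - z • (a - g • b))
    simp only [mulVec_sub, mulVec_smul, sub_dotProduct, dotProduct_sub, smul_dotProduct,
      dotProduct_smul, smul_eq_mul, ← hα, ← hβ, ← hγ, hγ', hz', hs', ← hz, ← hs, ← hp'] at h1
    -- N(t - z a') ≥ 0
    have h2 : 0 ≤ p + s ^ 2 - 2 * z ^ 2 + z ^ 2 * (α - γ * g) := by
      have h3 : 0 ≤ (s - z * g) ^ 2 := sq_nonneg _
      have e : p + s ^ 2 - 2 * z ^ 2 + z ^ 2 * (α - γ * g) =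
        (p - z * (z - g * s) - z * (z - z * (α - g * γ) - g * (s - z * (γ - g * β)))) +
          (s - z * g) ^ 2 := by
        have : g * (1 + β) * (z ^ 2 * g) = γ * (z ^ 2 * g) := by rw [hgγ]
        linear_combination -this
      rw [e]
      nlinarith [h1, h3]
    have h4 : α - γ * g < 1 := by
      have h5 : (α - γ * g) * (1 + β) < 1 + β := by
        have : (α - γ * g) * (1 + β) = X := by
          rw [hX]; linear_combination (-γ) * hgγ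
        rw [this, hX]; nlinarith [h]
      by_contra h6
      push Not at h6
      nlinarith
    by_cases hz0 : z = 0
    · rw [hz0]
      have := sq_nonneg s
      nlinarith
    · have h6 : 0 < z ^ 2 := by positivity
      nlinarith [h2, h4, h6]

/-- The moving matrix: `A₀ + v ρᵀ`. -/
def mv (A0 : Matrix (Fin n) (Fin n) ℝ) (v ρ : Fin n → ℝ) : Matrix (Fin n) (Fin n) ℝ :=
  A0 + vecMulVec v ρ

lemma mv_sq {A0 : Matrix (Fin n) (Fin n) ℝ} {v : Fin n → ℝ} (hv : v ⬝ᵥ v = 1)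
    (hA : v ᵥ* A0 = 0) (ρ t : Fin n → ℝ) :
    (mv A0 v ρ *ᵥ t) ⬝ᵥ (mv A0 v ρ *ᵥ t) = (A0 *ᵥ t) ⬝ᵥ (A0 *ᵥ t) + (ρ ⬝ᵥ t) ^ 2 := by
  have h1 : mv A0 v ρ *ᵥ t = A0 *ᵥ t + (ρ ⬝ᵥ t) • v := by
    rw [mv, add_mulVec, vecMulVec_mulVec]
    congr 1
    ext i; simp [mul_comm]
  have h2 : v ⬝ᵥ (A0 *ᵥ t) = 0 := by rw [dotProduct_mulVec, hA, zero_dotProduct]
  rw [h1]
  simp only [add_dotProduct, dotProduct_add, smul_dotProduct, dotProduct_smul, smul_eq_mul, hv, h2,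
    dotProduct_comm (A0 *ᵥ t) v]
  ring

theorem level_trig (hn : 0 < n) {A0 : Matrix (Fin n) (Fin n) ℝ} {v : Fin n → ℝ}
    (hv : v ⬝ᵥ v = 1) (hA : v ᵥ* A0 = 0) (p q h : Fin n → ℝ) {τ : ℝ} (hτ : 0 ≤ τ) :
    (∀ θ : ℝ, ¬ τ < smin (mv A0 v (p + Real.cos θ • q + Real.sin θ • h))) ∨
    ∃ c0 c1 c2 c3 c4 c5 : ℝ, ∀ θ : ℝ,
      (τ < smin (mv A0 v (p + Real.cos θ • q + Real.sin θ • h)) ↔
        0 < c0 + c1 * Real.cos θ + c2 * Real.sin θ + c3 * Real.cos θ ^ 2 +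
          c4 * (Real.cos θ * Real.sin θ) + c5 * Real.sin θ ^ 2) := by
  by_cases hex : ∃ θ0 : ℝ, τ < smin (mv A0 v (p + Real.cos θ0 • q + Real.sin θ0 • h))
  · right
    obtain ⟨θ0, hθ0⟩ := hex
    set ρ0 := p + Real.cos θ0 • q + Real.sin θ0 • h with hρ0
    set B := mv A0 v ρ0 with hB
    set T := Bᵀ * B - (τ ^ 2) • (1 : Matrix (Fin n) (Fin n) ℝ) with hT
    have hTt : ∀ t : Fin n → ℝ, t ⬝ᵥ (T *ᵥ t) = (B *ᵥ t) ⬝ᵥ (B *ᵥ t) - τ ^ 2 * (t ⬝ᵥ t) := by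
      intro t
      rw [hT, sub_mulVec, dotProduct_sub, smul_mulVec, one_mulVec, dotProduct_smul, smul_eq_mul,
        ← mulVec_mulVec, dotProduct_mulVec, vecMul_transpose]
    have hsym : Tᵀ = T := by
      rw [hT, transpose_sub, transpose_mul, transpose_transpose, transpose_smul, transpose_one]
    have hpos : ∀ x : Fin n → ℝ, x ≠ 0 → 0 < x ⬝ᵥ (T *ᵥ x) := by
      intro x hx
      rw [hTt]
      have := (lt_smin_iff hn hτ).mp hθ0 x hx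
      linarith
    have hdet : IsUnit T.det := by
      rw [isUnit_iff_ne_zero]
      intro h0
      obtain ⟨x, hx, hx0⟩ := Matrix.exists_mulVec_eq_zero_iff.mpr h0
      have := hpos x hx
      rw [hx0, dotProduct_zero] at this
      exact lt_irrefl _ this
    have hinv : ∀ ρ : Fin n → ℝ, T *ᵥ (T⁻¹ *ᵥ ρ) = ρ := by
      intro ρ
      rw [mulVec_mulVec, mul_nonsing_inv _ hdet, one_mulVec]
    set M := T⁻¹ with hM
    refine ⟨(1 - ρ0 ⬝ᵥ (M *ᵥ ρ0)) * (1 + p ⬝ᵥ (M *ᵥ p)) + (ρ0 ⬝ᵥ (M *ᵥ p)) ^ 2,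
      (1 - ρ0 ⬝ᵥ (M *ᵥ ρ0)) * (p ⬝ᵥ (M *ᵥ q) + q ⬝ᵥ (M *ᵥ p)) +
        2 * (ρ0 ⬝ᵥ (M *ᵥ p)) * (ρ0 ⬝ᵥ (M *ᵥ q)),
      (1 - ρ0 ⬝ᵥ (M *ᵥ ρ0)) * (p ⬝ᵥ (M *ᵥ h) + h ⬝ᵥ (M *ᵥ p)) +
        2 * (ρ0 ⬝ᵥ (M *ᵥ p)) * (ρ0 ⬝ᵥ (M *ᵥ h)),
      (1 - ρ0 ⬝ᵥ (M *ᵥ ρ0)) * (q ⬝ᵥ (M *ᵥ q)) + (ρ0 ⬝ᵥ (M *ᵥ q)) ^ 2,
      (1 - ρ0 ⬝ᵥ (M *ᵥ ρ0)) * (q ⬝ᵥ (M *ᵥ h) + h ⬝ᵥ (M *ᵥ q)) +
        2 * (ρ0 ⬝ᵥ (M *ᵥ q)) * (ρ0 ⬝ᵥ (M *ᵥ h)),
      (1 - ρ0 ⬝ᵥ (M *ᵥ ρ0)) * (h ⬝ᵥ (M *ᵥ h)) + (ρ0 ⬝ᵥ (M *ᵥ h)) ^ 2, ?_⟩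
    intro θ
    set ρ := p + Real.cos θ • q + Real.sin θ • h with hρ
    have h1 := rank_one_iff T hsym hpos (M *ᵥ ρ0) (M *ᵥ ρ)
    simp only [hinv] at h1
    have h2 : (τ < smin (mv A0 v ρ)) ↔
        (∀ t : Fin n → ℝ, t ≠ 0 → 0 < t ⬝ᵥ (T *ᵥ t) - (ρ0 ⬝ᵥ t) ^ 2 + (ρ ⬝ᵥ t) ^ 2) := by
      rw [lt_smin_iff hn hτ]
      refine forall_congr' fun t => imp_congr_right fun _ => ?_
      rw [hTt, hB, mv_sq hv hA, mv_sq hv hA]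
      constructor <;> intro h' <;> linarith
    rw [h2, h1]
    have h3 : ρ ⬝ᵥ (M *ᵥ ρ) = p ⬝ᵥ (M *ᵥ p) + (p ⬝ᵥ (M *ᵥ q) + q ⬝ᵥ (M *ᵥ p)) * Real.cos θ +
        (p ⬝ᵥ (M *ᵥ h) + h ⬝ᵥ (M *ᵥ p)) * Real.sin θ + (q ⬝ᵥ (M *ᵥ q)) * Real.cos θ ^ 2 +
        (q ⬝ᵥ (M *ᵥ h) + h ⬝ᵥ (M *ᵥ q)) * (Real.cos θ * Real.sin θ) +
        (h ⬝ᵥ (M *ᵥ h)) * Real.sin θ ^ 2 := by
      rw [hρ]
      simp only [mulVec_add, mulVec_smul, add_dotProduct, dotProduct_add, smul_dotProduct,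
        dotProduct_smul, smul_eq_mul]
      ring
    have h4 : ρ0 ⬝ᵥ (M *ᵥ ρ) = ρ0 ⬝ᵥ (M *ᵥ p) + (ρ0 ⬝ᵥ (M *ᵥ q)) * Real.cos θ +
        (ρ0 ⬝ᵥ (M *ᵥ h)) * Real.sin θ := by
      rw [hρ]
      simp only [mulVec_add, mulVec_smul, dotProduct_add, dotProduct_smul, smul_eq_mul]
      ring
    have e : (1 - ρ0 ⬝ᵥ (M *ᵥ ρ0)) * (1 + ρ ⬝ᵥ (M *ᵥ ρ)) + (ρ0 ⬝ᵥ (M *ᵥ ρ)) ^ 2 =
      (1 - ρ0 ⬝ᵥ (M *ᵥ ρ0)) * (1 + p ⬝ᵥ (M *ᵥ p)) + (ρ0 ⬝ᵥ (M *ᵥ p)) ^ 2 +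
      ((1 - ρ0 ⬝ᵥ (M *ᵥ ρ0)) * (p ⬝ᵥ (M *ᵥ q) + q ⬝ᵥ (M *ᵥ p)) +
        2 * (ρ0 ⬝ᵥ (M *ᵥ p)) * (ρ0 ⬝ᵥ (M *ᵥ q))) * Real.cos θ +
      ((1 - ρ0 ⬝ᵥ (M *ᵥ ρ0)) * (p ⬝ᵥ (M *ᵥ h) + h ⬝ᵥ (M *ᵥ p)) +
        2 * (ρ0 ⬝ᵥ (M *ᵥ p)) * (ρ0 ⬝ᵥ (M *ᵥ h))) * Real.sin θ +
      ((1 - ρ0 ⬝ᵥ (M *ᵥ ρ0)) * (q ⬝ᵥ (M *ᵥ q)) + (ρ0 ⬝ᵥ (M *ᵥ q)) ^ 2) * Real.cos θ ^ 2 +
      ((1 - ρ0 ⬝ᵥ (M *ᵥ ρ0)) * (q ⬝ᵥ (M *ᵥ h) + h ⬝ᵥ (M *ᵥ q)) +
        2 * (ρ0 ⬝ᵥ (M *ᵥ q)) * (ρ0 ⬝ᵥ (M *ᵥ h))) * (Real.cos θ * Real.sin θ) +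
      ((1 - ρ0 ⬝ᵥ (M *ᵥ ρ0)) * (h ⬝ᵥ (M *ᵥ h)) + (ρ0 ⬝ᵥ (M *ᵥ h)) ^ 2) * Real.sin θ ^ 2 := by
      rw [h3, h4]; ring
    rw [e]
  · left
    intro θ hθ
    exact hex ⟨θ, hθ⟩

/-- Variation of the truncated least singular value over the whole circle. -/
theorem path_variation (hn : 0 < n) {A0 : Matrix (Fin n) (Fin n) ℝ} {v : Fin n → ℝ}
    (hv : v ⬝ᵥ v = 1) (hA : v ᵥ* A0 = 0) (p q h : Fin n → ℝ) {ε : ℝ} (hε : 0 ≤ ε) (N : ℕ)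
    (hN : 0 < N) (δ : ℝ) (hδ : δ = 2 * Real.pi / N) :
    ∑ k ∈ Finset.range N,
      max (min (smin (mv A0 v (p + Real.cos ((k : ℕ) * δ) • q + Real.sin ((k : ℕ) * δ) • h))) ε -
        min (smin (mv A0 v (p + Real.cos ((k + 1 : ℕ) * δ) • q + Real.sin ((k + 1 : ℕ) * δ) • h))) ε)
        0 ≤ 2 * ε := by
  have hND : (N : ℝ) * δ = 2 * Real.pi := by
    have : (0 : ℝ) < N := by exact_mod_cast hN
    rw [hδ]; field_simp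
  refine variation_bound N
    (fun k => min (smin (mv A0 v (p + Real.cos ((k : ℕ) * δ) • q + Real.sin ((k : ℕ) * δ) • h))) ε)
    ε (fun k => le_min (smin_nonneg _) hε) (fun k => min_le_right _ _) ?_ ?_
  · simp only [hND]
    simp
  · intro τ hτ0 hτε
    have hiff : ∀ k : ℕ, (τ < min (smin (mv A0 v
        (p + Real.cos ((k : ℕ) * δ) • q + Real.sin ((k : ℕ) * δ) • h))) ε) ↔
        τ < smin (mv A0 v (p + Real.cos ((k : ℕ) * δ) • q + Real.sin ((k : ℕ) * δ) • h)) := by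
      intro k
      rw [lt_min_iff]
      exact ⟨fun h => h.1, fun h => ⟨h, hτε⟩⟩
    simp only [hiff]
    rcases level_trig hn hv hA p q h hτ0 with h1 | ⟨c0, c1, c2, c3, c4, c5, h1⟩
    · have : (Finset.range N).filter (fun k : ℕ => ¬ (τ < smin (mv A0 v
          (p + Real.cos ((k : ℕ) * δ) • q + Real.sin ((k : ℕ) * δ) • h)) ↔
          τ < smin (mv A0 v
          (p + Real.cos ((k + 1 : ℕ) * δ) • q + Real.sin ((k + 1 : ℕ) * δ) • h)))) = ∅ := by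
        rw [Finset.filter_eq_empty_iff]
        intro k _
        rw [not_not]
        exact ⟨fun h' => absurd h' (h1 _), fun h' => absurd h' (h1 _)⟩
      rw [this]; simp
    · have := trig_changes c0 c1 c2 c3 c4 c5 N hN
        (fun θ => c0 + c1 * Real.cos θ + c2 * Real.sin θ + c3 * Real.cos θ ^ 2 +
          c4 * (Real.cos θ * Real.sin θ) + c5 * Real.sin θ ^ 2) (fun _ => rfl) δ hδ
      simp only [h1]
      exact this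

end Pool.Agent.TH551.SV
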