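import Pool.Agent.TH551.SV.Lin
import Pool.Agent.H992R2.Rot

/-! Rotating one row of a Gaussian matrix against an independent Gaussian vector. -/

set_option autoImplicit false
open MeasureTheory Measure Set Matrix ProbabilityTheory
open scoped ENNReal NNReal

namespace Pool.Agent.TH551.SV

open Pool.Agent.H992R2 (gam)

variable {n : ℕ}

/-- The matrix attached to a function on pairs. -/
def mx (x : Fin n × Fin n → ℝ) : Matrix (Fin n) (Fin n) ℝ := Matrix.of fun i j => x (i, j)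

/-- The path of matrices. -/
noncomputable def pth (Abar : Matrix (Fin n) (Fin n) ℝ) (θ : ℝ) (x : Fin n × Fin n → ℝ)
    (h v : Fin n → ℝ) : Matrix (Fin n) (Fin n) ℝ :=
  Abar + mx x + vecMulVec v ((Real.cos θ - 1) • (v ᵥ* mx x) + Real.sin θ • h)

lemma pth_zero (Abar : Matrix (Fin n) (Fin n) ℝ) (x : Fin n × Fin n → ℝ) (h v : Fin n → ℝ) :
    pth Abar 0 x h v = Abar + mx x := by
  simp [pth]

lemma pth_eq_mv (Abar : Matrix (Fin n) (Fin n) ℝ) (θ : ℝ) (x : Fin n × Fin n → ℝ)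
    (h v : Fin n → ℝ) :
    pth Abar θ x h v = mv (Abar + mx x - vecMulVec v (v ᵥ* (Abar + mx x))) v
      (v ᵥ* Abar + Real.cos θ • (v ᵥ* mx x) + Real.sin θ • h) := by
  ext i j
  simp only [pth, mv, vecMul_add, Matrix.add_apply, Matrix.sub_apply, vecMulVec_apply,
    Pi.add_apply, Pi.smul_apply, smul_eq_mul]
  ring

lemma perp (A : Matrix (Fin n) (Fin n) ℝ) {v : Fin n → ℝ} (hv : v ⬝ᵥ v = 1) :
    v ᵥ* (A - vecMulVec v (v ᵥ* A)) = 0 := by
  rw [vecMul_sub, vecMul_vecMulVec, hv]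
  simp

/-- The rotation. -/
noncomputable def rotL (v : Fin n → ℝ) (θ : ℝ) :
    ((Fin n × Fin n) ⊕ Fin n → ℝ) →ₗ[ℝ] ((Fin n × Fin n) ⊕ Fin n → ℝ) where
  toFun y := Sum.elim
    (fun p => y (Sum.inl p) + v p.1 * ((Real.cos θ - 1) * (∑ k, v k * y (Sum.inl (k, p.2)))
      + Real.sin θ * y (Sum.inr p.2)))
    (fun j => -Real.sin θ * (∑ k, v k * y (Sum.inl (k, j))) + Real.cos θ * y (Sum.inr j))
  map_add' y z := by
    funext s
    rcases s with p | j
    · simp only [Pi.add_apply, Sum.elim_inl, mul_add, Finset.sum_add_distrib]; ring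
    · simp only [Pi.add_apply, Sum.elim_inr, mul_add, Finset.sum_add_distrib]; ring
  map_smul' c y := by
    funext s
    have : ∀ j, ∑ k, v k * (c * y (Sum.inl (k, j))) = c * ∑ k, v k * y (Sum.inl (k, j)) := by
      intro j
      rw [Finset.mul_sum]
      exact Finset.sum_congr rfl fun k _ => by ring
    rcases s with p | j
    · simp only [Pi.smul_apply, Sum.elim_inl, smul_eq_mul, RingHom.id_apply, this]; ring
    · simp only [Pi.smul_apply, Sum.elim_inr, smul_eq_mul, RingHom.id_apply, this]; ring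

lemma rotL_isom {v : Fin n → ℝ} (hv : v ⬝ᵥ v = 1) (θ : ℝ) (y : (Fin n × Fin n) ⊕ Fin n → ℝ) :
    ∑ i, (rotL v θ y i) ^ 2 = ∑ i, (y i) ^ 2 := by
  have hv' : ∑ i, v i * v i = 1 := hv
  rw [Fintype.sum_sum_type, Fintype.sum_sum_type, Fintype.sum_prod_type_right,
    Fintype.sum_prod_type_right, ← Finset.sum_add_distrib, ← Finset.sum_add_distrib]
  refine Finset.sum_congr rfl fun j _ => ?_
  simp only [rotL, LinearMap.coe_mk, AddHom.coe_mk, Sum.elim_inl, Sum.elim_inr]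
  set q := ∑ k, v k * y (Sum.inl (k, j)) with hq
  set h := y (Sum.inr j) with hh
  set w := (Real.cos θ - 1) * q + Real.sin θ * h with hw
  have e1 : ∑ i, (y (Sum.inl (i, j)) + v i * w) ^ 2 =
      ∑ i, y (Sum.inl (i, j)) ^ 2 + 2 * w * q + w ^ 2 := by
    have : ∀ i, (y (Sum.inl (i, j)) + v i * w) ^ 2 =
        y (Sum.inl (i, j)) ^ 2 + 2 * w * (v i * y (Sum.inl (i, j))) + w ^ 2 * (v i * v i) := by
      intro i; ring
    simp_rw [this]
    rw [Finset.sum_add_distrib, Finset.sum_add_distrib, ← Finset.mul_sum, ← Finset.mul_sum, hv',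
      ← hq, mul_one]
  rw [e1]
  have hcs := Real.sin_sq_add_cos_sq θ
  rw [hw]
  linear_combination (q ^ 2 + h ^ 2) * hcs

/-- The rotation on the product space. -/
noncomputable def rot (v : Fin n → ℝ) (θ : ℝ) (z : (Fin n × Fin n → ℝ) × (Fin n → ℝ)) :
    (Fin n × Fin n → ℝ) × (Fin n → ℝ) :=
  (fun p => z.1 p + v p.1 * ((Real.cos θ - 1) * (∑ k, v k * z.1 (k, p.2)) + Real.sin θ * z.2 p.2),
   fun j => -Real.sin θ * (∑ k, v k * z.1 (k, j)) + Real.cos θ * z.2 j)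

theorem mp_rot {v : Fin n → ℝ} (hv : v ⬝ᵥ v = 1) (θ : ℝ) :
    MeasurePreserving (rot v θ) ((gam (Fin n × Fin n)).prod (gam (Fin n)))
      ((gam (Fin n × Fin n)).prod (gam (Fin n))) := by
  have h1 := Pool.Agent.H992R2.mp_isometry (rotL v θ) (rotL_isom hv θ)
  have h2 := measurePreserving_sumPiEquivProdPi
    (fun _ : (Fin n × Fin n) ⊕ Fin n => gaussianReal 0 1)
  have h3 := measurePreserving_sumPiEquivProdPi_symm
    (fun _ : (Fin n × Fin n) ⊕ Fin n => gaussianReal 0 1)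
  have h4 := h2.comp (h1.comp h3)
  exact h4

lemma vecMul_mx_apply (v : Fin n → ℝ) (x : Fin n × Fin n → ℝ) (j : Fin n) :
    (v ᵥ* mx x) j = ∑ k, v k * x (k, j) := rfl

lemma vecMul_rot {v : Fin n → ℝ} (hv : v ⬝ᵥ v = 1) (θ : ℝ)
    (z : (Fin n × Fin n → ℝ) × (Fin n → ℝ)) :
    v ᵥ* mx (rot v θ z).1 = Real.cos θ • (v ᵥ* mx z.1) + Real.sin θ • z.2 := by
  have hv' : ∑ i, v i * v i = 1 := hv
  funext j
  rw [vecMul_mx_apply]
  simp only [rot, Pi.add_apply, Pi.smul_apply, smul_eq_mul, vecMul_mx_apply]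
  set q := ∑ k, v k * z.1 (k, j) with hq
  set w := (Real.cos θ - 1) * q + Real.sin θ * z.2 j with hw
  have : ∀ k, v k * (z.1 (k, j) + v k * w) = v k * z.1 (k, j) + w * (v k * v k) := by
    intro k; ring
  simp_rw [this]
  rw [Finset.sum_add_distrib, ← Finset.mul_sum, hv', ← hq, mul_one, hw]
  ring

lemma rot_snd (v : Fin n → ℝ) (θ : ℝ) (z : (Fin n × Fin n → ℝ) × (Fin n → ℝ)) :
    (rot v θ z).2 = -Real.sin θ • (v ᵥ* mx z.1) + Real.cos θ • z.2 := by
  funext j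
  simp only [rot, Pi.add_apply, Pi.smul_apply, smul_eq_mul, vecMul_mx_apply]

lemma mx_rot (v : Fin n → ℝ) (θ : ℝ) (z : (Fin n × Fin n → ℝ) × (Fin n → ℝ)) :
    mx (rot v θ z).1 =
      mx z.1 + vecMulVec v ((Real.cos θ - 1) • (v ᵥ* mx z.1) + Real.sin θ • z.2) := by
  ext i j
  simp only [mx, rot, Matrix.of_apply, Matrix.add_apply, vecMulVec_apply, Pi.add_apply,
    Pi.smul_apply, smul_eq_mul]
  congr 1

/-- Moving along the path is rotating first. -/
lemma pth_rot (Abar : Matrix (Fin n) (Fin n) ℝ) {v : Fin n → ℝ} (hv : v ⬝ᵥ v = 1) (θ φ : ℝ)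
    (z : (Fin n × Fin n → ℝ) × (Fin n → ℝ)) :
    pth Abar φ (rot v θ z).1 (rot v θ z).2 v = pth Abar (θ + φ) z.1 z.2 v := by
  unfold pth
  rw [vecMul_rot hv, rot_snd, mx_rot]
  ext i j
  simp only [Matrix.add_apply, vecMulVec_apply, Pi.add_apply, Pi.smul_apply, smul_eq_mul,
    Real.cos_add, Real.sin_add]
  ring

/-- The truncated least singular value along the path. -/
noncomputable def F (Abar : Matrix (Fin n) (Fin n) ℝ) (ε θ : ℝ) (x : Fin n × Fin n → ℝ)
    (h v : Fin n → ℝ) : ℝ := min (smin (pth Abar θ x h v)) ε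

lemma meas_smin {X : Type*} [TopologicalSpace X] [MeasurableSpace X] [OpensMeasurableSpace X]
    (hn : 0 < n) {M : X → Matrix (Fin n) (Fin n) ℝ} (hM : Continuous M) :
    Measurable fun x => smin (M x) := by
  refine measurable_of_Iio fun c => ?_
  have h1 : (fun x => smin (M x)) ⁻¹' Iio c = ⋃ t ∈ usph n, {x | nA (M x) t < c} := by
    ext x
    simp only [mem_preimage, mem_Iio, mem_iUnion, exists_prop, mem_ofPred_eq]
    constructor
    · intro h
      obtain ⟨t, ht, h1, -⟩ := exists_min hn (M x)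
      exact ⟨t, ht, h1 ▸ h⟩
    · rintro ⟨t, ht, h⟩
      exact (smin_le ht).trans_lt h
  rw [h1]
  apply IsOpen.measurableSet
  refine isOpen_biUnion fun t _ => ?_
  refine isOpen_lt ?_ continuous_const
  unfold nA
  have h2 : Continuous fun x => M x *ᵥ t := Continuous.matrix_mulVec hM continuous_const
  exact Real.continuous_sqrt.comp (Continuous.dotProduct h2 h2)

lemma continuous_mx : Continuous (mx : (Fin n × Fin n → ℝ) → Matrix (Fin n) (Fin n) ℝ) := by
  refine continuous_matrix fun i j => ?_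
  simp only [mx, Matrix.of_apply]
  exact continuous_apply _

lemma continuous_pth (Abar : Matrix (Fin n) (Fin n) ℝ) (θ : ℝ) :
    Continuous fun z : (Fin n × Fin n → ℝ) × ((Fin n → ℝ) × (Fin n → ℝ)) =>
      pth Abar θ z.1 z.2.1 z.2.2 := by
  refine continuous_matrix fun i j => ?_
  simp only [pth, mx, Matrix.of_apply, Matrix.add_apply, vecMulVec_apply, Pi.add_apply,
    Pi.smul_apply, smul_eq_mul, vecMul, dotProduct]
  fun_prop

lemma meas_F (hn : 0 < n) (Abar : Matrix (Fin n) (Fin n) ℝ) (ε θ : ℝ) :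
    Measurable fun z : (Fin n × Fin n → ℝ) × ((Fin n → ℝ) × (Fin n → ℝ)) =>
      F Abar ε θ z.1 z.2.1 z.2.2 :=
  (meas_smin hn (continuous_pth Abar θ)).min measurable_const

/-- The expected decrease over one step is at most `2 ε / N`. -/
theorem step_bound (hn : 0 < n) (Abar : Matrix (Fin n) (Fin n) ℝ) {ε : ℝ} (hε : 0 ≤ ε)
    {v : Fin n → ℝ} (hv : v ⬝ᵥ v = 1) (N : ℕ) (hN : 0 < N) (δ : ℝ)
    (hδ : δ = 2 * Real.pi / N) :
    (N : ℝ≥0∞) * ∫⁻ z, ENNReal.ofReal (F Abar ε 0 z.1 z.2 v - F Abar ε δ z.1 z.2 v)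
      ∂((gam (Fin n × Fin n)).prod (gam (Fin n))) ≤ ENNReal.ofReal (2 * ε) := by
  set P := (gam (Fin n × Fin n)).prod (gam (Fin n)) with hP
  have hmF : ∀ θ, Measurable fun z : (Fin n × Fin n → ℝ) × (Fin n → ℝ) => F Abar ε θ z.1 z.2 v := by
    intro θ
    have h1 : Measurable fun z : (Fin n × Fin n → ℝ) × (Fin n → ℝ) => (z.1, (z.2, v)) :=
      measurable_fst.prodMk (measurable_snd.prodMk measurable_const)
    have h2 := Measurable.comp (meas_F hn Abar ε θ) h1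
    exact h2
  have h1 : ∀ k : ℕ, ∫⁻ z, ENNReal.ofReal (F Abar ε ((k : ℕ) * δ) z.1 z.2 v -
      F Abar ε ((k + 1 : ℕ) * δ) z.1 z.2 v) ∂P =
      ∫⁻ z, ENNReal.ofReal (F Abar ε 0 z.1 z.2 v - F Abar ε δ z.1 z.2 v) ∂P := by
    intro k
    have h2 := (mp_rot hv ((k : ℕ) * δ)).lintegral_comp
      (f := fun z => ENNReal.ofReal (F Abar ε 0 z.1 z.2 v - F Abar ε δ z.1 z.2 v))
      (((hmF 0).sub (hmF δ)).ennreal_ofReal)
    rw [← h2]
    refine lintegral_congr fun z => ?_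
    simp only [F, pth_rot Abar hv, add_zero]
    congr 5
    push_cast; ring
  have h3 : (N : ℝ≥0∞) * ∫⁻ z, ENNReal.ofReal (F Abar ε 0 z.1 z.2 v - F Abar ε δ z.1 z.2 v) ∂P =
      ∑ k ∈ Finset.range N, ∫⁻ z, ENNReal.ofReal (F Abar ε ((k : ℕ) * δ) z.1 z.2 v -
      F Abar ε ((k + 1 : ℕ) * δ) z.1 z.2 v) ∂P := by
    simp_rw [h1]
    rw [Finset.sum_const, Finset.card_range, nsmul_eq_mul]
  have hmd : ∀ a b : ℝ, Measurable fun z : (Fin n × Fin n → ℝ) × (Fin n → ℝ) =>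
      ENNReal.ofReal (F Abar ε a z.1 z.2 v - F Abar ε b z.1 z.2 v) :=
    fun a b => ((hmF a).sub (hmF b)).ennreal_ofReal
  rw [h3, ← lintegral_finsetSum _ (fun (k : ℕ) _ => hmd ((k : ℕ) * δ) ((k + 1 : ℕ) * δ))]
  have h4 : ∀ z : (Fin n × Fin n → ℝ) × (Fin n → ℝ),
      ∑ k ∈ Finset.range N, ENNReal.ofReal (F Abar ε ((k : ℕ) * δ) z.1 z.2 v -
      F Abar ε ((k + 1 : ℕ) * δ) z.1 z.2 v) ≤ ENNReal.ofReal (2 * ε) := by
    intro z
    have h5 := path_variation hn hv (perp (Abar + mx z.1) hv) (v ᵥ* Abar) (v ᵥ* mx z.1) z.2 hε N hN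
      δ hδ
    simp only [← pth_eq_mv] at h5
    refine le_trans ?_ (ENNReal.ofReal_le_ofReal h5)
    rw [ENNReal.ofReal_sum_of_nonneg (fun _ _ => le_max_right _ _)]
    refine Finset.sum_le_sum fun k _ => ?_
    exact ENNReal.ofReal_le_ofReal (le_max_left _ _)
  refine (lintegral_mono h4).trans ?_
  rw [lintegral_const]
  have : IsProbabilityMeasure P := by rw [hP]; infer_instance
  rw [measure_univ, mul_one]

end Pool.Agent.TH551.SV
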